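import Pool.Agent.Q74.KP.Expl

/-!
# Project BT: elementary facts on the error function
-/

set_option autoImplicit false

namespace Pool.Agent.Q195.BT

open MeasureTheory Filter Topology Set
open Pool.Agent.Q74.KP (Erf)

theorem cont_g : Continuous (fun y : ℝ => Real.exp (-y ^ 2)) := by fun_prop

theorem ii_g (a b : ℝ) : IntervalIntegrable (fun y : ℝ => Real.exp (-y ^ 2)) volume a b :=
  cont_g.intervalIntegrable a b

theorem Erf_zero : Erf 0 = 0 := by
  unfold Erf
  simp

theorem Erf_sub (x y : ℝ) : Erf y - Erf x = 2 / √Real.pi * ∫ u in x..y, Real.exp (-u ^ 2) := by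
  unfold Erf
  rw [← mul_sub, intervalIntegral.integral_interval_sub_left (ii_g 0 y) (ii_g 0 x)]

theorem Erf_mono {x y : ℝ} (h : x ≤ y) : Erf x ≤ Erf y := by
  have h1 := Erf_sub x y
  have h2 : 0 ≤ ∫ u in x..y, Real.exp (-u ^ 2) :=
    intervalIntegral.integral_nonneg h fun u _ => (Real.exp_pos _).le
  have h3 : 0 ≤ 2 / √Real.pi * ∫ u in x..y, Real.exp (-u ^ 2) := by positivity
  linarith

theorem Erf_lip {x y : ℝ} (h : x ≤ y) : Erf y ≤ Erf x + 2 * (y - x) := by
  have h1 := Erf_sub x y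
  have h2 : ∫ u in x..y, Real.exp (-u ^ 2) ≤ ∫ _u in x..y, (1 : ℝ) := by
    apply intervalIntegral.integral_mono_on h (ii_g x y) (by simp)
    intro u _
    rw [Real.exp_le_one_iff]
    nlinarith [sq_nonneg u]
  rw [intervalIntegral.integral_const, smul_eq_mul, mul_one] at h2
  have h3 : 2 / √Real.pi ≤ 2 := by
    have : 1 ≤ √Real.pi := by
      rw [Real.one_le_sqrt]
      linarith [Real.pi_gt_three]
    rw [div_le_iff₀ (by linarith)]
    linarith
  have h4 : 2 / √Real.pi * ∫ u in x..y, Real.exp (-u ^ 2) ≤ 2 * (y - x) := by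
    have h5 : 0 ≤ ∫ u in x..y, Real.exp (-u ^ 2) :=
      intervalIntegral.integral_nonneg h fun u _ => (Real.exp_pos _).le
    exact mul_le_mul h3 h2 h5 (by norm_num)
  linarith

theorem Erf_nonneg {x : ℝ} (h : 0 ≤ x) : 0 ≤ Erf x := by
  have := Erf_mono h
  rwa [Erf_zero] at this

theorem Erf_tendsto : Tendsto Erf atTop (𝓝 1) := by
  have h1 : IntegrableOn (fun y : ℝ => Real.exp (-y ^ 2)) (Ioi 0) := by
    have := (integrable_exp_neg_mul_sq (b := 1) (by norm_num)).integrableOn (s := Ioi (0 : ℝ))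
    simpa using this
  have h2 := intervalIntegral_tendsto_integral_Ioi (0 : ℝ) h1 tendsto_id
  have h3 : ∫ y in Ioi (0 : ℝ), Real.exp (-y ^ 2) = √Real.pi / 2 := by
    have := integral_gaussian_Ioi 1
    simpa using this
  rw [h3] at h2
  have h4 := h2.const_mul (2 / √Real.pi)
  have h5 : 2 / √Real.pi * (√Real.pi / 2) = 1 := by
    have : √Real.pi ≠ 0 := by positivity
    field_simp
  rw [h5] at h4
  exact h4

end Pool.Agent.Q195.BT
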