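import Pool.Agent.Q74.BT.Stm
import Pool.Agent.Q195.BT.ErfL

/-!
# Project BT, job Up: assembly of the upper bound
-/

set_option autoImplicit false

namespace Pool.Agent.Q195.BT

open Finset Pool.Agent.Q74.BT
open Pool.Agent.Q158.Pair (T)
open Pool.Agent.Q74.AR (oc oc_per)
open Pool.Agent.Q74.KP (EE Erf Pe EE_mono EE_add EE_mul EE_const EE_nonneg)
open Pool.Agent.Q74.BL (nx ww nx_add nx_zero EE_split)
open Pool.Agent.H395R2.G3 (rr FF)

/-! ### probabilities -/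

/-- frequency of a property of the residues modulo `2 ^ t` -/
noncomputable def PR (t : ℕ) (P : ℤ → Prop) : ℝ := EE t (fun x => Set.indicator {x : ℤ | P x} 1 x)

theorem ind_le_one (P : ℤ → Prop) (x : ℤ) : Set.indicator {x : ℤ | P x} (1 : ℤ → ℝ) x ≤ 1 := by
  by_cases h : x ∈ {x : ℤ | P x}
  · rw [Set.indicator_of_mem h, Pi.one_apply]
  · rw [Set.indicator_of_notMem h]
    norm_num

theorem ind_nonneg (P : ℤ → Prop) (x : ℤ) : 0 ≤ Set.indicator {x : ℤ | P x} (1 : ℤ → ℝ) x :=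
  Set.indicator_nonneg (fun _ _ => by norm_num) x

theorem ind_one {P : ℤ → Prop} {x : ℤ} (h : P x) :
    Set.indicator {x : ℤ | P x} (1 : ℤ → ℝ) x = 1 := by
  have h1 : x ∈ {x : ℤ | P x} := h
  rw [Set.indicator_of_mem h1, Pi.one_apply]

theorem ind_zero {P : ℤ → Prop} {x : ℤ} (h : ¬ P x) :
    Set.indicator {x : ℤ | P x} (1 : ℤ → ℝ) x = 0 := by
  have h1 : x ∉ {x : ℤ | P x} := h
  exact Set.indicator_of_notMem h1 _

theorem PR_le_one (t : ℕ) (P : ℤ → Prop) : PR t P ≤ 1 := by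
  unfold PR
  have := EE_mono t (ind_le_one P)
  rwa [EE_const] at this

theorem PR_mono {t : ℕ} {P Q : ℤ → Prop} (h : ∀ x, P x → Q x) : PR t P ≤ PR t Q := by
  unfold PR
  refine EE_mono t fun x => ?_
  by_cases hP : P x
  · rw [ind_one hP, ind_one (h x hP)]
  · rw [ind_zero hP]
    exact ind_nonneg Q x

theorem PR_or (t : ℕ) (P Q : ℤ → Prop) : PR t (fun x => P x ∨ Q x) ≤ PR t P + PR t Q := by
  unfold PR
  rw [← EE_add]
  refine EE_mono t fun x => ?_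
  have a := ind_nonneg P x
  have b := ind_nonneg Q x
  by_cases h : P x ∨ Q x
  · rw [ind_one (P := fun x => P x ∨ Q x) h]
    rcases h with h | h
    · rw [ind_one h]; linarith
    · rw [ind_one h]; linarith
  · rw [ind_zero (P := fun x => P x ∨ Q x) h]
    linarith

theorem PR_per {s t : ℕ} (hs : s ≤ t) {P : ℤ → Prop} (h : ∀ x j : ℤ, P (x + 2 ^ s * j) ↔ P x) :
    PR t P = PR s P := by
  obtain ⟨r, rfl⟩ := Nat.exists_eq_add_of_le hs
  unfold PR
  rw [EE_split]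
  congr 1
  funext x
  have h1 : (fun x' : ℤ => Set.indicator {x : ℤ | P x} (1 : ℤ → ℝ) (2 ^ s * x' + x)) =
      fun _ => Set.indicator {x : ℤ | P x} (1 : ℤ → ℝ) x := by
    funext x'
    rw [add_comm]
    by_cases hx : P x
    · rw [ind_one hx, ind_one ((h x x').2 hx)]
    · rw [ind_zero hx, ind_zero (fun h' => hx ((h x x').1 h'))]
  rw [h1, EE_const]

theorem PR_markov {t : ℕ} {F : ℤ → ℝ} {B lam : ℝ} (hF : ∀ x, 0 ≤ F x) (hlam : 0 < lam)
    (h : EE t F ≤ B) : PR t (fun x => lam ≤ F x) ≤ B / lam := by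
  rw [le_div_iff₀ hlam, mul_comm]
  refine le_trans ?_ h
  unfold PR
  rw [← EE_mul]
  refine EE_mono t fun x => ?_
  by_cases hx : lam ≤ F x
  · rw [ind_one (P := fun x => lam ≤ F x) hx, mul_one]
    exact hx
  · rw [ind_zero (P := fun x => lam ≤ F x) hx, mul_zero]
    exact hF x

theorem PR_comp (r s : ℕ) (Q : ℤ → Prop) (x : ℤ) :
    EE r (fun x' => Set.indicator {x : ℤ | Q x} (1 : ℤ → ℝ) (2 ^ s * x' + x)) =
      PR r (fun N => Q (2 ^ s * N + x)) := rfl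

theorem PR_cond {s r : ℕ} {Q B : ℤ → Prop} {β : ℝ} (hβ : 0 ≤ β)
    (h : ∀ x, ¬ B x → PR r (fun N => Q (2 ^ s * N + x)) ≤ β) : PR (s + r) Q ≤ β + PR s B := by
  unfold PR
  rw [EE_split, ← EE_const s β, ← EE_add]
  refine EE_mono s fun x => ?_
  by_cases hx : B x
  · rw [ind_one hx]
    have h1 : EE r (fun x' => Set.indicator {x : ℤ | Q x} (1 : ℤ → ℝ) (2 ^ s * x' + x)) ≤ 1 := by
      have := EE_mono r (fun x' => ind_le_one Q (2 ^ s * x' + x))
      rwa [EE_const] at this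
    linarith
  · rw [ind_zero hx, add_zero, PR_comp]
    exact h x hx

/-! ### the forms -/

/-- the forms at the time `0` -/
def V0 (L : ℕ) : Finset (ℕ × ℤ) := (range L).image (fun j : ℕ => ((0 : ℕ), (j : ℤ)))

theorem VV_eq (L t : ℕ) (x : ℤ) : VV L t x = (V0 L).image (nx t x) := by
  unfold VV V0
  rw [image_image]
  rfl

theorem VV_add (L s r : ℕ) (x N : ℤ) : VV L (s + r) (2 ^ s * N + x) = (VV L s x).image (nx r N) := by
  unfold VV
  rw [image_image]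
  congr 1
  funext j
  rw [Function.comp_apply, nx_add]

theorem nx_fst (t : ℕ) (x : ℤ) (j : ℕ) : (nx t x (0, (j : ℤ))).1 = oc t (x + j) := by
  unfold nx
  simp

theorem QQ_V0 {η : ℝ} (h1 : η ≤ 1) (L : ℕ) : QQ η (V0 L) 0 ≤ (L : ℝ) * L := by
  unfold QQ
  have h2 : ∀ z ∈ V0 L, (1 + |ww 0 z|) ^ η ≤ (L : ℝ) := by
    intro z hz
    unfold V0 at hz
    obtain ⟨j, hj, rfl⟩ := mem_image.1 hz
    have h3 : ww 0 ((0 : ℕ), (j : ℤ)) = j := by
      unfold ww
      simp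
    rw [h3, abs_of_nonneg (Nat.cast_nonneg j)]
    have h4 : (1 : ℝ) + j ≤ L := by
      have := mem_range.1 hj
      exact_mod_cast (by omega : 1 + j ≤ L)
    have h5 : (0 : ℝ) ≤ j := Nat.cast_nonneg j
    calc (1 + (j : ℝ)) ^ η ≤ (1 + (j : ℝ)) ^ (1 : ℝ) :=
          Real.rpow_le_rpow_of_exponent_le (by linarith) h1
      _ = 1 + j := Real.rpow_one _
      _ ≤ L := h4
  refine (sum_le_card_nsmul _ _ _ h2).trans ?_
  rw [nsmul_eq_mul]
  have h3 : (V0 L).card ≤ L := by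
    unfold V0
    exact card_image_le.trans (by rw [card_range])
  exact mul_le_mul_of_nonneg_right (by exact_mod_cast h3) (Nat.cast_nonneg L)

/-- levels of a good block -/
theorem levels {L s t₂ : ℕ} {x : ℤ} {g e ℓ b : ℝ}
    (h1 : ¬ ∃ z ∈ VV L s x, g * s ≤ z.1) (h2 : ¬ ∃ z ∈ VV L s x, (z.1 : ℝ) < s / 2 - b)
    (h3 : ¬ ∃ j : ℕ, j < L ∧ e * ℓ < |(oc t₂ (x + j) : ℝ) - oc s (x + j) - ((t₂ : ℝ) - s) / 2|) :
    ∀ z ∈ VV L t₂ x, ∀ z' ∈ VV L t₂ x, (z'.1 : ℝ) - z.1 ≤ g * s - s / 2 + b + 2 * (e * ℓ) := by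
  push Not at h1 h2 h3
  have key : ∀ j : ℕ, j < L → (oc s (x + j) : ℝ) < g * s ∧ (s : ℝ) / 2 - b ≤ oc s (x + j) ∧
      |(oc t₂ (x + j) : ℝ) - oc s (x + j) - ((t₂ : ℝ) - s) / 2| ≤ e * ℓ := by
    intro j hj
    have hm : nx s x (0, (j : ℤ)) ∈ VV L s x := by
      unfold VV
      exact mem_image.2 ⟨j, mem_range.2 hj, rfl⟩
    have a1 := h1 _ hm
    have a2 := h2 _ hm
    rw [nx_fst] at a1 a2
    exact ⟨a1, a2, h3 j hj⟩
  intro z hz z' hz'
  unfold VV at hz hz'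
  obtain ⟨j, hj, rfl⟩ := mem_image.1 hz
  obtain ⟨j', hj', rfl⟩ := mem_image.1 hz'
  rw [nx_fst, nx_fst]
  obtain ⟨_, a2, a3⟩ := key j (mem_range.1 hj)
  obtain ⟨b1, _, b3⟩ := key j' (mem_range.1 hj')
  have a4 := (abs_le.1 a3).1
  have b4 := (abs_le.1 b3).2
  linarith

/-- offsets of a good block -/
theorem offsets {V : Finset (ℕ × ℤ)} {θ η H : ℝ} (hη : 0 < η)
    (h : QQ η V θ < H) : ∀ z ∈ V, ∀ z' ∈ V, z.1 ≤ z'.1 →
    |(z'.2 : ℝ) - 3 ^ (z'.1 - z.1) * z.2| ≤ 3 ^ (z'.1 - z.1) * (2 * H ^ (1 / η)) := by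
  have key : ∀ z ∈ V, |ww θ z| ≤ H ^ (1 / η) := by
    intro z hz
    have h1 : (1 + |ww θ z|) ^ η ≤ QQ η V θ := by
      unfold QQ
      exact single_le_sum (f := fun z => (1 + |ww θ z|) ^ η)
        (fun i _ => Real.rpow_nonneg (by positivity) _) hz
    have h2 : 1 + |ww θ z| ≤ H ^ (1 / η) := by
      have h3 : ((1 + |ww θ z|) ^ η) ^ (1 / η) ≤ H ^ (1 / η) :=
        Real.rpow_le_rpow (Real.rpow_nonneg (by positivity) _) (h1.trans h.le) (by positivity)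
      rwa [← Real.rpow_mul (by positivity), mul_one_div_cancel hη.ne', Real.rpow_one] at h3
    linarith
  intro z hz z' hz' hle
  have e1 : (z'.2 : ℝ) - 3 ^ (z'.1 - z.1) * z.2 = ww θ z' - 3 ^ (z'.1 - z.1) * ww θ z := by
    unfold ww
    have : (3 : ℝ) ^ z'.1 = 3 ^ (z'.1 - z.1) * 3 ^ z.1 := by
      rw [← pow_add]; congr 1; omega
    rw [this]
    ring
  rw [e1]
  have hp : (1 : ℝ) ≤ 3 ^ (z'.1 - z.1) := one_le_pow₀ (by norm_num)
  have hY := key z hz
  have hY' := key z' hz'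
  have hY0 : 0 ≤ H ^ (1 / η) := (abs_nonneg _).trans hY
  calc |ww θ z' - 3 ^ (z'.1 - z.1) * ww θ z| ≤ |ww θ z'| + |3 ^ (z'.1 - z.1) * ww θ z| :=
        abs_sub _ _
    _ = |ww θ z'| + 3 ^ (z'.1 - z.1) * |ww θ z| := by
        rw [abs_mul, abs_of_pos (by positivity : (0 : ℝ) < 3 ^ (z'.1 - z.1))]
    _ ≤ H ^ (1 / η) + 3 ^ (z'.1 - z.1) * H ^ (1 / η) :=
        add_le_add hY' (mul_le_mul_of_nonneg_left hY (by positivity))
    _ ≤ 3 ^ (z'.1 - z.1) * (2 * H ^ (1 / η)) := by nlinarith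

/-! ### numerical facts -/

theorem one_add_le_exp' {e x : ℝ} (he : 0 < e) (he1 : e ≤ 1) (hx : 0 ≤ x) :
    1 + x ≤ e⁻¹ * Real.exp (e * x) := by
  have h1 := Real.add_one_le_exp (e * x)
  have h2 : e * (1 + x) ≤ Real.exp (e * x) := by nlinarith
  calc 1 + x = e⁻¹ * (e * (1 + x)) := by field_simp
    _ ≤ e⁻¹ * Real.exp (e * x) := mul_le_mul_of_nonneg_left h2 (by positivity)

theorem growth {η ρ H₀ : ℝ} (hη : 0 < η) (hρ : 0 < ρ) (hH : 0 < H₀) : ∃ t₁ : ℕ, ∀ t : ℕ, t₁ ≤ t →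
    2 * (H₀ * (1 + t)) ^ (1 / η) ≤ Real.exp (ρ * (t / 2)) := by
  set a : ℝ := min 1 (η * ρ / 4) with ha
  have ha0 : 0 < a := lt_min (by norm_num) (by positivity)
  have ha1 : a ≤ 1 := min_le_left _ _
  have ha2 : a ≤ η * ρ / 4 := min_le_right _ _
  set D : ℝ := 2 * (H₀ * a⁻¹) ^ (1 / η) with hD
  have hD0 : 0 < D := by positivity
  obtain ⟨t₁, ht₁⟩ := exists_nat_ge (4 * Real.log D / ρ)
  refine ⟨t₁, fun t ht => ?_⟩
  have ht' : (t₁ : ℝ) ≤ t := by exact_mod_cast ht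
  have ht0 : (0 : ℝ) ≤ t := Nat.cast_nonneg t
  have h1 := one_add_le_exp' ha0 ha1 ht0
  have h2 : H₀ * (1 + t) ≤ (H₀ * a⁻¹) * Real.exp (a * t) := by
    have := mul_le_mul_of_nonneg_left h1 hH.le
    linarith
  have h3 : (H₀ * (1 + t)) ^ (1 / η) ≤ (H₀ * a⁻¹) ^ (1 / η) * Real.exp (ρ * t / 4) := by
    calc (H₀ * (1 + t)) ^ (1 / η) ≤ ((H₀ * a⁻¹) * Real.exp (a * t)) ^ (1 / η) :=
          Real.rpow_le_rpow (by positivity) h2 (by positivity)
      _ = (H₀ * a⁻¹) ^ (1 / η) * (Real.exp (a * t)) ^ (1 / η) :=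
          Real.mul_rpow (by positivity) (Real.exp_pos _).le
      _ ≤ (H₀ * a⁻¹) ^ (1 / η) * Real.exp (ρ * t / 4) := by
          refine mul_le_mul_of_nonneg_left ?_ (by positivity)
          rw [← Real.exp_mul]
          apply Real.exp_le_exp.2
          have h5 : a * t * (1 / η) ≤ η * ρ / 4 * t * (1 / η) :=
            mul_le_mul_of_nonneg_right (mul_le_mul_of_nonneg_right ha2 ht0) (by positivity)
          have h6 : η * ρ / 4 * t * (1 / η) = ρ * t / 4 := by field_simp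
          linarith
  have h4 : D ≤ Real.exp (ρ * t / 4) := by
    rw [← Real.log_le_iff_le_exp hD0]
    have h5 : 4 * Real.log D / ρ ≤ t := ht₁.trans ht'
    rw [div_le_iff₀ hρ] at h5
    linarith
  calc 2 * (H₀ * (1 + t)) ^ (1 / η) ≤ 2 * ((H₀ * a⁻¹) ^ (1 / η) * Real.exp (ρ * t / 4)) :=
        mul_le_mul_of_nonneg_left h3 (by norm_num)
    _ = D * Real.exp (ρ * t / 4) := by rw [hD]; ring
    _ ≤ Real.exp (ρ * t / 4) * Real.exp (ρ * t / 4) :=
        mul_le_mul_of_nonneg_right h4 (Real.exp_pos _).le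
    _ = Real.exp (ρ * (t / 2)) := by
        rw [← Real.exp_add]; congr 1; ring

/-- bound of the length of the segment -/
theorem segment {g γ e ℓ s b M t r D : ℝ} (hg0 : 1 / 2 ≤ g) (hg1 : g ≤ 1) (hγ : 0 < γ)
    (hγ1 : γ ≤ 42) (he : 0 < e) (he1 : e ≤ 1 / 2) (hℓ : 1 ≤ e * ℓ) (hs0 : 0 ≤ s)
    (hs : s ≤ (γ + e) * ℓ + 1) (hD : D = γ * (g - 1 / 2) + b) (hD0 : 0 ≤ D) (ht : 0 < t)
    (hM : ℓ ≤ M * √t) (hr : (1 - e) * t ≤ r) :
    ((g + e) * s - s / 2 + (b + e) * ℓ + 2 * (e * ℓ)) / √r ≤ D * ℓ / √t + (D + 100) * M * e := by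
  have hℓ0 : 0 < ℓ := by
    by_contra h
    push Not at h
    nlinarith
  have hr0 : 0 < r := lt_of_lt_of_le (mul_pos (by linarith) ht) hr
  have hst : 0 < √t := Real.sqrt_pos.2 ht
  have hsr : 0 < √r := Real.sqrt_pos.2 hr0
  have h1 : (g + e) * s - s / 2 + (b + e) * ℓ + 2 * (e * ℓ) ≤ (D + 50 * e) * ℓ := by
    have a1 : (g + e - 1 / 2) * s ≤ (g + e - 1 / 2) * ((γ + e) * ℓ + 1) :=
      mul_le_mul_of_nonneg_left hs (by linarith)
    have a2 : (g + e - 1 / 2) * ((γ + e) * ℓ + 1) ≤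
        γ * (g - 1 / 2) * ℓ + 45 * (e * ℓ) := by
      have b1 : (g - 1 / 2) * (e * ℓ) ≤ 1 / 2 * (e * ℓ) :=
        mul_le_mul_of_nonneg_right (by linarith) (by positivity)
      have b2 : γ * (e * ℓ) ≤ 42 * (e * ℓ) := mul_le_mul_of_nonneg_right hγ1 (by positivity)
      have b3 : e * (e * ℓ) ≤ 1 / 2 * (e * ℓ) := mul_le_mul_of_nonneg_right he1 (by positivity)
      nlinarith
    rw [hD]
    nlinarith
  have h2 : √t ≤ (1 + e) * √r := by
    apply Real.sqrt_le_iff.2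
    refine ⟨by positivity, ?_⟩
    rw [mul_pow, Real.sq_sqrt hr0.le]
    have a1 : (1 + e) ^ 2 * ((1 - e) * t) ≤ (1 + e) ^ 2 * r :=
      mul_le_mul_of_nonneg_left hr (by positivity)
    have a2 : t ≤ (1 + e) ^ 2 * ((1 - e) * t) := by
      have : (1 + e) ^ 2 * ((1 - e) * t) - t = t * (e * (1 - e - e ^ 2)) := by ring
      have h3 : 0 ≤ 1 - e - e ^ 2 := by nlinarith
      have : 0 ≤ t * (e * (1 - e - e ^ 2)) := by positivity
      linarith
    linarith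
  have h3 : 1 / √r ≤ (1 + e) / √t := by
    rw [div_le_div_iff₀ hsr hst]
    linarith
  have hnn : 0 ≤ (D + 50 * e) * ℓ := by positivity
  calc ((g + e) * s - s / 2 + (b + e) * ℓ + 2 * (e * ℓ)) / √r
      ≤ (D + 50 * e) * ℓ / √r := div_le_div_of_nonneg_right h1 hsr.le
    _ = (D + 50 * e) * ℓ * (1 / √r) := by ring
    _ ≤ (D + 50 * e) * ℓ * ((1 + e) / √t) := mul_le_mul_of_nonneg_left h3 hnn
    _ = D * ℓ / √t + (D + 50 + 50 * e) * e * (ℓ / √t) := by ring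
    _ ≤ D * ℓ / √t + (D + 100) * e * M := by
        have a1 : ℓ / √t ≤ M := by
          rw [div_le_iff₀ hst]; exact hM
        have a2 : (D + 50 + 50 * e) * e * (ℓ / √t) ≤ (D + 50 + 50 * e) * e * M :=
          mul_le_mul_of_nonneg_left a1 (by positivity)
        have hM0 : 0 ≤ M := le_trans (by positivity) a1
        have a3 : (D + 50 + 50 * e) * (e * M) ≤ (D + 100) * (e * M) :=
          mul_le_mul_of_nonneg_right (by linarith) (by positivity)
        linarith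
    _ = D * ℓ / √t + (D + 100) * M * e := by ring

theorem rr_facts {γ : ℝ} (hγ : IsG γ) : 1 / 2 ≤ rr γ ∧ rr γ ≤ 1 := by
  have hγ0 : 0 < γ := by linarith [hγ.1]
  refine ⟨?_, (Pool.Agent.H395R2.G3.rr_lt_one hγ0).le⟩
  have l2a := Real.log_two_gt_d9
  have l3b := Real.log_three_lt_d9
  have hl3 : 0 < Real.log 3 := Real.log_pos (by norm_num)
  have h1 : 1 / γ ≤ 1 / 41 := one_div_le_one_div_of_le (by norm_num) (by linarith [hγ.1])
  unfold rr
  rw [le_div_iff₀ hl3]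
  norm_num at *
  linarith

theorem le_of_log {L₀ L : ℕ} (hL : 1 ≤ L) (h : Real.log L₀ ≤ Real.log L) : L₀ ≤ L := by
  rcases Nat.eq_zero_or_pos L₀ with h0 | h0
  · omega
  · have h1 : (0 : ℝ) < L₀ := by exact_mod_cast h0
    have h2 : (0 : ℝ) < L := by exact_mod_cast hL
    rw [Real.log_le_log_iff h1 h2] at h
    exact_mod_cast h

theorem VV_lev (L s : ℕ) (x : ℤ) (φ : ℕ → Prop) :
    (∃ z ∈ VV L s x, φ z.1) ↔ ∃ j : ℕ, j < L ∧ φ (oc s (x + j)) := by
  unfold VV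
  constructor
  · rintro ⟨z, hz, h⟩
    obtain ⟨j, hj, rfl⟩ := mem_image.1 hz
    rw [nx_fst] at h
    exact ⟨j, mem_range.1 hj, h⟩
  · rintro ⟨j, hj, h⟩
    refine ⟨_, mem_image.2 ⟨j, mem_range.2 hj, rfl⟩, ?_⟩
    rw [nx_fst]
    exact h

theorem lev_per (L s : ℕ) (φ : ℕ → Prop) (x j : ℤ) :
    (∃ z ∈ VV L s (x + 2 ^ s * j), φ z.1) ↔ ∃ z ∈ VV L s x, φ z.1 := by
  rw [VV_lev, VV_lev]
  have h : ∀ i : ℕ, oc s (x + 2 ^ s * j + i) = oc s (x + i) := by
    intro i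
    rw [show x + 2 ^ s * j + (i : ℤ) = (x + i) + 2 ^ s * j by ring, oc_per]
  simp only [h]

theorem card_VV_pos {L : ℕ} (hL : 1 ≤ L) (t : ℕ) (x : ℤ) : 1 ≤ (VV L t x).card := by
  unfold VV
  apply card_pos.2
  exact (nonempty_range_iff.2 (by omega)).image _

theorem QQ_nonneg (η : ℝ) (V : Finset (ℕ × ℤ)) (θ : ℝ) : 0 ≤ QQ η V θ :=
  sum_nonneg fun _ _ => Real.rpow_nonneg (by positivity) _

theorem up (h1 : S_Kap) (h2 : S_Pot) (h3 : S_Mean) (h4 : S_Top) (h5 : S_Bot) (h6 : S_Walk)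
    (h7 : S_Pin) : S_Up := by
  intro γ hγ ε hε
  have hγ0 : 0 < γ := by linarith [hγ.1]
  have hγ1 : 1 ≤ γ := by linarith [hγ.1]
  have hγ42 : γ ≤ 42 := by linarith [hγ.2.1]
  obtain ⟨hg0, hg1⟩ := rr_facts hγ
  have hl2 : 0 < Real.log 2 := Real.log_pos (by norm_num)
  set g := rr γ with hg
  set b : ℝ := 1 / (2 * Real.log 2) with hb
  have hb0 : 0 < b := by positivity
  set D : ℝ := DD γ with hDdef
  have hD : D = γ * (g - 1 / 2) + b := rfl
  have hD0 : 0 < D := by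
    rw [hD]
    have : 0 ≤ γ * (g - 1 / 2) := mul_nonneg hγ0.le (by linarith)
    linarith
  -- M
  obtain ⟨M', hM'⟩ : ∃ M' : ℝ, ∀ x, M' ≤ x → 1 - ε ≤ Erf x :=
    Filter.eventually_atTop.1 (Erf_tendsto.eventually_const_le (by linarith))
  set M : ℝ := |M'| / D + 1 with hM
  have hM1 : 1 ≤ M := by
    have : 0 ≤ |M'| / D := by positivity
    linarith
  have hM0 : 0 < M := by linarith
  have hDM : M' ≤ D * M := by
    have : D * M = |M'| + D := by rw [hM]; field_simp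
    rw [this]
    linarith [le_abs_self M']
  set e : ℝ := min (1 / 2) (ε / (7 + 2 * (D + 100) * M)) with he'
  have hden : 0 < 7 + 2 * (D + 100) * M := by positivity
  have he : 0 < e := lt_min (by norm_num) (by positivity)
  have heh : e ≤ 1 / 2 := min_le_left _ _
  have hee : (7 + 2 * (D + 100) * M) * e ≤ ε := by
    have : e ≤ ε / (7 + 2 * (D + 100) * M) := min_le_right _ _
    rw [le_div_iff₀ hden] at this
    linarith
  obtain ⟨η, q, hη0, hη1, hq1, hq2, _⟩ := h1 γ hγ 1 one_pos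
  have hq0 : 0 < q := by
    have : 0 < la η := by unfold la; positivity
    linarith
  have hlq : 0 < -Real.log q := by
    have := Real.log_neg hq0 hq2
    linarith
  obtain ⟨K, hK, hPot⟩ := h2 η q hη0 hη1 hq1 hq2
  obtain ⟨Cm, hCm, hMean⟩ := h3 γ hγ e he
  obtain ⟨c, hc, hTop⟩ := h4 γ hγ e he
  obtain ⟨Lb, hBot⟩ := h5 (γ + 2) e (by linarith) he
  obtain ⟨δw, hδw, Lw, hWalk⟩ := h6 γ hγ e he
  set δ : ℝ := min δw (e / M ^ 2) with hδdef
  have hδ : 0 < δ := lt_min hδw (by positivity)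
  have hδ1 : δ ≤ δw := min_le_left _ _
  have hδ2 : δ * M ^ 2 ≤ e := by
    have : δ ≤ e / M ^ 2 := min_le_right _ _
    rwa [le_div_iff₀ (by positivity)] at this
  set k : ℕ := ⌈2 * Cm / (√δ * e)⌉₊ with hk
  have hsδ : 0 < √δ := Real.sqrt_pos.2 hδ
  have hk0 : (0 : ℝ) < k := by
    have : 0 < 2 * Cm / (√δ * e) := by positivity
    exact lt_of_lt_of_le this (Nat.le_ceil _)
  have hkle : 2 * Cm / √δ ≤ e * k := by
    have h8 : 2 * Cm / (√δ * e) ≤ k := Nat.le_ceil _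
    rw [div_le_iff₀ (by positivity)] at h8
    rw [div_le_iff₀ hsδ]
    linarith
  obtain ⟨ρ, hρ, r₀, hPin⟩ := h7 k e he
  set H₀ : ℝ := (K + 1) / e with hH₀
  have hH0 : 0 < H₀ := by positivity
  obtain ⟨t₁, hgrow⟩ := growth hη0 hρ hH0
  set κ : ℝ := ε / Cm with hκ
  have hκ0 : 0 < κ := by positivity
  set Λ : ℝ := max (Real.log Lb) (max (Real.log Lw) (max (1 / e) (max (-Real.log e / c)
    (max ((γ + 3) / δ) (4 / (δ * -Real.log q)))))) with hΛ
  have L1 : Real.log Lb ≤ Λ := le_max_left _ _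
  have L2 : Real.log Lw ≤ Λ := (le_max_left _ _).trans (le_max_right _ _)
  have L3 : 1 / e ≤ Λ := (le_max_left _ _).trans ((le_max_right _ _).trans (le_max_right _ _))
  have L4 : -Real.log e / c ≤ Λ := (le_max_left _ _).trans ((le_max_right _ _).trans
    ((le_max_right _ _).trans (le_max_right _ _)))
  have L5 : (γ + 3) / δ ≤ Λ := (le_max_left _ _).trans ((le_max_right _ _).trans
    ((le_max_right _ _).trans ((le_max_right _ _).trans (le_max_right _ _))))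
  have L6 : 4 / (δ * -Real.log q) ≤ Λ := (le_max_right _ _).trans ((le_max_right _ _).trans
    ((le_max_right _ _).trans ((le_max_right _ _).trans (le_max_right _ _))))
  obtain ⟨N₁, hN₁⟩ := exists_nat_ge (max (Λ / κ) ((γ + e) * κ))
  have hN₁a : Λ / κ ≤ N₁ := (le_max_left _ _).trans hN₁
  have hN₁b : (γ + e) * κ ≤ N₁ := (le_max_right _ _).trans hN₁
  refine ⟨max (N₁ ^ 2) (max t₁ (max (2 * r₀) 1)), fun t ht L hL => ?_⟩
  have ht1 : N₁ ^ 2 ≤ t := (le_max_left _ _).trans ht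
  have ht2 : t₁ ≤ t := ((le_max_left _ _).trans (le_max_right _ _)).trans ht
  have ht3 : 2 * r₀ ≤ t :=
    ((le_max_left _ _).trans ((le_max_right _ _).trans (le_max_right _ _))).trans ht
  have ht4 : 1 ≤ t :=
    ((le_max_right _ _).trans ((le_max_right _ _).trans (le_max_right _ _))).trans ht
  have htr : (1 : ℝ) ≤ t := by exact_mod_cast ht4
  have ht0 : (0 : ℝ) < t := by linarith
  have hst0 : 0 < √(t : ℝ) := Real.sqrt_pos.2 ht0
  have hNt : (N₁ : ℝ) ≤ √t := by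
    apply Real.le_sqrt_of_sq_le
    exact_mod_cast ht1
  set ℓ : ℝ := Real.log L with hℓ
  have hℓ0 : 0 ≤ ℓ := Real.log_nonneg (by exact_mod_cast hL)
  have hErf0 : 0 ≤ Erf (D * ℓ / √t) := Erf_nonneg (by positivity)
  change PR t (fun x => 2 ≤ (VV L t x).card) ≤ Erf (D * ℓ / √t) + ε
  rcases Nat.lt_or_ge L 2 with hL2 | hL2
  · -- L = 1
    have h8 : PR t (fun x => 2 ≤ (VV L t x).card) ≤ 0 := by
      have h9 : PR t (fun x => 2 ≤ (VV L t x).card) ≤ EE t (fun _ => 0) := by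
        unfold PR
        refine EE_mono t fun x => ?_
        rw [ind_zero (P := fun x => 2 ≤ (VV L t x).card)]
        have : (VV L t x).card ≤ L := by
          unfold VV
          exact card_image_le.trans (by rw [card_range])
        omega
      rwa [EE_const] at h9
    linarith
  have hcard : ∀ (t' : ℕ) (x : ℤ), 0 ≤ ((VV L t' x).card : ℝ) - 1 := by
    intro t' x
    have : (1 : ℝ) ≤ (VV L t' x).card := by exact_mod_cast card_VV_pos hL t' x
    linarith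
  by_cases hB : ℓ ≤ κ * √t
  · -- short blocks
    have h8 : (γ + e) * ℓ ≤ t := by
      calc (γ + e) * ℓ ≤ (γ + e) * (κ * √t) := mul_le_mul_of_nonneg_left hB (by positivity)
        _ = (γ + e) * κ * √t := by ring
        _ ≤ √t * √t := mul_le_mul_of_nonneg_right (hN₁b.trans hNt) hst0.le
        _ = t := Real.mul_self_sqrt ht0.le
    have h9 := hMean L t hL2 h8
    have h10 := PR_markov (t := t) (F := fun x => ((VV L t x).card : ℝ) - 1)
      (hcard t) one_pos h9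
    have h11 : PR t (fun x => 2 ≤ (VV L t x).card) ≤
        PR t (fun x => 1 ≤ ((VV L t x).card : ℝ) - 1) := by
      refine PR_mono fun x hx => ?_
      have : (2 : ℝ) ≤ (VV L t x).card := by exact_mod_cast hx
      linarith
    have h12 : Cm * (ℓ / √t) ≤ ε := by
      have : ℓ / √t ≤ κ := by
        rw [div_le_iff₀ hst0]
        exact hB
      calc Cm * (ℓ / √t) ≤ Cm * κ := mul_le_mul_of_nonneg_left this hCm.le
        _ = ε := by rw [hκ]; field_simp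
    rw [div_one] at h10
    linarith
  push Not at hB
  by_cases hC : M * √t ≤ ℓ
  · -- long blocks
    have h8 : M' ≤ D * ℓ / √t := by
      rw [le_div_iff₀ hst0]
      have a1 : M' * √t ≤ D * M * √t := mul_le_mul_of_nonneg_right hDM hst0.le
      have a2 : D * (M * √t) ≤ D * ℓ := mul_le_mul_of_nonneg_left hC hD0.le
      linarith
    have h9 := hM' _ h8
    have h10 := PR_le_one t (fun x => 2 ≤ (VV L t x).card)
    linarith
  push Not at hC
  -- main case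
  have hℓΛ : Λ ≤ ℓ := by
    have a1 : Λ ≤ N₁ * κ := by rwa [div_le_iff₀ hκ0] at hN₁a
    have a2 : N₁ * κ ≤ √t * κ := mul_le_mul_of_nonneg_right hNt hκ0.le
    linarith
  have hLb : Lb ≤ L := le_of_log hL (L1.trans hℓΛ)
  have hLw : Lw ≤ L := le_of_log hL (L2.trans hℓΛ)
  have heℓ : 1 ≤ e * ℓ := by
    have := L3.trans hℓΛ
    rw [div_le_iff₀ he] at this
    linarith
  have heℓ2 : e * ℓ ≤ 1 / 2 * ℓ := mul_le_mul_of_nonneg_right heh hℓ0
  have hℓ1 : 2 ≤ ℓ := by linarith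
  have hℓp : 0 < ℓ := by linarith
  have hγℓ : 1 * ℓ ≤ γ * ℓ := mul_le_mul_of_nonneg_right hγ1 hℓ0
  have hδℓ : (γ + 3) * ℓ ≤ δ * ℓ ^ 2 := by
    have h8 := L5.trans hℓΛ
    rw [div_le_iff₀ hδ] at h8
    calc (γ + 3) * ℓ ≤ (ℓ * δ) * ℓ := mul_le_mul_of_nonneg_right h8 hℓ0
      _ = δ * ℓ ^ 2 := by ring
  have hqℓ : 4 * ℓ ≤ δ * ℓ ^ 2 * -Real.log q := by
    have h8 := L6.trans hℓΛ
    rw [div_le_iff₀ (mul_pos hδ hlq)] at h8
    calc 4 * ℓ ≤ (ℓ * (δ * -Real.log q)) * ℓ := mul_le_mul_of_nonneg_right h8 hℓ0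
      _ = δ * ℓ ^ 2 * -Real.log q := by ring
  set s : ℕ := ⌈(γ + e) * ℓ⌉₊ with hs
  set t₂ : ℕ := ⌊δ * ℓ ^ 2⌋₊ with ht₂
  have hs1 : (γ + e) * ℓ ≤ s := Nat.le_ceil _
  have hs2 : (s : ℝ) ≤ (γ + e) * ℓ + 1 := (Nat.ceil_lt_add_one (by positivity)).le
  have ht2a : (t₂ : ℝ) ≤ δ * ℓ ^ 2 := Nat.floor_le (by positivity)
  have ht2b : δ * ℓ ^ 2 < t₂ + 1 := Nat.lt_floor_add_one _
  have hst : s ≤ t₂ := by
    have : (s : ℝ) ≤ t₂ := by linarith
    exact_mod_cast this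
  have ht2c : δ * ℓ ^ 2 / 2 ≤ t₂ := by linarith
  have hℓM : ℓ ≤ M * √t := hC.le
  have ht2d : (t₂ : ℝ) ≤ e * t := by
    have a1 : ℓ ^ 2 ≤ M ^ 2 * t := by
      calc ℓ ^ 2 ≤ (M * √t) ^ 2 := pow_le_pow_left₀ hℓ0 hℓM 2
        _ = M ^ 2 * t := by rw [mul_pow, Real.sq_sqrt ht0.le]
    calc (t₂ : ℝ) ≤ δ * ℓ ^ 2 := ht2a
      _ ≤ δ * (M ^ 2 * t) := mul_le_mul_of_nonneg_left a1 hδ.le
      _ = δ * M ^ 2 * t := by ring
      _ ≤ e * t := mul_le_mul_of_nonneg_right hδ2 ht0.le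
  have het : e * t ≤ 1 / 2 * t := mul_le_mul_of_nonneg_right heh ht0.le
  have ht2t : t₂ ≤ t := by
    have : (t₂ : ℝ) ≤ t := by linarith
    exact_mod_cast this
  obtain ⟨r, hr⟩ := Nat.exists_eq_add_of_le ht2t
  have hrr : (r : ℝ) = t - t₂ := by
    rw [hr]
    push_cast
    ring
  have hr1 : (1 - e) * t ≤ r := by rw [hrr]; linarith
  have hr2 : (t : ℝ) / 2 ≤ r := by
    have : (1 / 2 : ℝ) * t ≤ (1 - e) * t := mul_le_mul_of_nonneg_right (by linarith) ht0.le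
    linarith
  have hrr0 : r₀ ≤ r := by
    have h8 : (2 * r₀ : ℝ) ≤ t := by exact_mod_cast ht3
    have : (r₀ : ℝ) ≤ r := by linarith
    exact_mod_cast this
  have ht₂0 : (0 : ℝ) < t₂ := by
    have : 0 < δ * ℓ ^ 2 := by positivity
    linarith
  set H : ℝ := H₀ * (1 + t₂) with hH
  have hHpos : 0 < H := by positivity
  -- the events
  set P1 : ℤ → Prop := fun x => ∃ z ∈ VV L s x, (g + e) * s ≤ z.1 with hP1
  set P2 : ℤ → Prop := fun x => ∃ z ∈ VV L s x, (z.1 : ℝ) < s / 2 - (b + e) * ℓ with hP2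
  set P3 : ℤ → Prop := fun x => ∃ j : ℕ, j < L ∧
    e * ℓ < |(oc t₂ (x + j) : ℝ) - oc s (x + j) - ((t₂ : ℝ) - s) / 2| with hP3
  set P4 : ℤ → Prop := fun x => (k : ℝ) ≤ ((VV L t₂ x).card : ℝ) - 1 with hP4
  set P5 : ℤ → Prop := fun x => H ≤ QQ η (VV L t₂ x) (x / 2 ^ t₂) with hP5
  have p1 : PR t₂ P1 ≤ e := by
    rw [PR_per hst (fun x j => lev_per L s (fun a => (g + e) * s ≤ (a : ℝ)) x j)]
    have h8 : γ * ℓ ≤ s := by linarith
    refine (hTop L s hL h8).trans ?_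
    rw [← Real.le_log_iff_exp_le he]
    have h9 := L4.trans hℓΛ
    rw [div_le_iff₀ hc] at h9
    have h10 : ℓ ≤ s := by linarith
    have h11 : c * ℓ ≤ c * s := mul_le_mul_of_nonneg_left h10 hc.le
    linarith
  have p2 : PR t₂ P2 ≤ e := by
    rw [PR_per hst (fun x j => lev_per L s (fun a => (a : ℝ) < s / 2 - (b + e) * ℓ) x j)]
    have h8 : (s : ℝ) ≤ (γ + 2) * ℓ := by linarith
    exact hBot L hLb s h8
  have p3 : PR t₂ P3 ≤ e := by
    refine hWalk L hLw s t₂ hs1 hst (ht2a.trans ?_)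
    exact mul_le_mul_of_nonneg_right hδ1 (by positivity)
  have p4 : PR t₂ P4 ≤ e := by
    have h8 : (γ + e) * ℓ ≤ t₂ := by linarith
    have h9 := hMean L t₂ hL2 h8
    have h10 := PR_markov (t := t₂) (F := fun x => ((VV L t₂ x).card : ℝ) - 1)
      (hcard t₂) hk0 h9
    refine h10.trans ?_
    rw [div_le_iff₀ hk0]
    refine le_trans ?_ hkle
    have h11 : ℓ / √t₂ ≤ 2 / √δ := by
      rw [div_le_div_iff₀ (Real.sqrt_pos.2 ht₂0) hsδ]
      have h12 : ℓ * √δ = √(δ * ℓ ^ 2) := by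
        rw [Real.sqrt_mul hδ.le, Real.sqrt_sq hℓ0, mul_comm]
      rw [h12]
      have h13 : √(δ * ℓ ^ 2) ≤ √(2 ^ 2 * (t₂ : ℝ)) := Real.sqrt_le_sqrt (by linarith)
      have h14 : √(2 ^ 2 * (t₂ : ℝ)) = 2 * √t₂ := by
        rw [Real.sqrt_mul (by norm_num : (0 : ℝ) ≤ 2 ^ 2), Real.sqrt_sq (by norm_num : (0 : ℝ) ≤ 2)]
      rw [h14] at h13
      exact h13
    calc Cm * (ℓ / √t₂) ≤ Cm * (2 / √δ) := mul_le_mul_of_nonneg_left h11 hCm.le
      _ = 2 * Cm / √δ := by ring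
  have p5 : PR t₂ P5 ≤ e := by
    have h8 := hPot 0 (V0 L) (fun z hz => by
      unfold V0 at hz
      obtain ⟨j, _, rfl⟩ := mem_image.1 hz
      exact le_rfl) 0 t₂
    have h9 : EE t₂ (fun x => QQ η (VV L t₂ x) (x / 2 ^ t₂)) ≤ (K + 1) * (1 + t₂) := by
      have e1 : (fun x : ℤ => QQ η (VV L t₂ x) (x / 2 ^ t₂)) =
          fun x : ℤ => QQ η ((V0 L).image (nx t₂ x)) ((0 + x) / 2 ^ t₂) := by
        funext x
        rw [VV_eq, zero_add]
      rw [e1]
      refine h8.trans ?_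
      have h10 : q ^ t₂ * QQ η (V0 L) 0 ≤ 1 := by
        have h11 := QQ_V0 hη1.le L
        have hLp : (0 : ℝ) < L := by exact_mod_cast (by omega : 0 < L)
        have h12 : q ^ t₂ * ((L : ℝ) * L) ≤ 1 := by
          rw [← Real.log_nonpos_iff (by positivity), Real.log_mul (by positivity) (by positivity),
            Real.log_mul hLp.ne' hLp.ne', Real.log_pow]
          have h13 : δ * ℓ ^ 2 / 2 * -Real.log q ≤ t₂ * -Real.log q :=
            mul_le_mul_of_nonneg_right ht2c hlq.le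
          have h14 : Real.log (L : ℝ) = ℓ := rfl
          rw [h14]
          linarith
        calc q ^ t₂ * QQ η (V0 L) 0 ≤ q ^ t₂ * ((L : ℝ) * L) :=
              mul_le_mul_of_nonneg_left h11 (by positivity)
          _ ≤ 1 := h12
      push_cast
      linarith
    have h10 := PR_markov (t := t₂) (F := fun x => QQ η (VV L t₂ x) (x / 2 ^ t₂))
      (fun x => QQ_nonneg _ _ _) hHpos h9
    refine h10.trans (le_of_eq ?_)
    rw [hH, hH₀]
    field_simp
  set R : ℝ := (g + e) * s - s / 2 + (b + e) * ℓ + 2 * (e * ℓ) with hR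
  have hR0 : 0 ≤ R := by
    have : 0 ≤ (g + e - 1 / 2) * s := mul_nonneg (by linarith) (Nat.cast_nonneg s)
    have h8 : 0 ≤ (b + e) * ℓ := by positivity
    have h9 : 0 ≤ e * ℓ := by positivity
    rw [hR]
    linarith
  have hcond := PR_cond (s := t₂) (r := r) (Q := fun x => 2 ≤ (VV L t x).card)
    (B := fun x => P1 x ∨ P2 x ∨ P3 x ∨ P4 x ∨ P5 x) (β := Erf (R / √r) + e)
    (add_nonneg (Erf_nonneg (by positivity)) he.le) (by
      intro x hx
      push Not at hx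
      obtain ⟨n1, n2, n3, n4, n5⟩ := hx
      have h8 : (fun N : ℤ => 2 ≤ (VV L t (2 ^ t₂ * N + x)).card) =
          fun N => 2 ≤ ((VV L t₂ x).image (nx r N)).card := by
        funext N
        rw [hr, VV_add]
      rw [h8]
      refine hPin r hrr0 (VV L t₂ x) ?_ ?_ R hR0 ?_
      · have h9 : ((VV L t₂ x).card : ℝ) - 1 < k := by
          by_contra hcon
          push Not at hcon
          exact n4 hcon
        have h10 : ((VV L t₂ x).card : ℝ) < ((k + 1 : ℕ) : ℝ) := by push_cast; linarith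
        have h11 : (VV L t₂ x).card < k + 1 := by exact_mod_cast h10
        omega
      · intro z hz z' hz' hle
        have h9 : QQ η (VV L t₂ x) (x / 2 ^ t₂) < H := by
          by_contra hcon
          push Not at hcon
          exact n5 hcon
        refine (offsets hη0 h9 z hz z' hz' hle).trans ?_
        refine mul_le_mul_of_nonneg_left ?_ (by positivity)
        have h10 := hgrow t ht2
        have h11 : H ^ (1 / η) ≤ (H₀ * (1 + t)) ^ (1 / η) := by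
          apply Real.rpow_le_rpow hHpos.le _ (by positivity)
          rw [hH]
          have : (t₂ : ℝ) ≤ t := by exact_mod_cast ht2t
          exact mul_le_mul_of_nonneg_left (by linarith) hH0.le
        have h12 : Real.exp (ρ * (t / 2)) ≤ Real.exp (ρ * r) :=
          Real.exp_le_exp.2 (mul_le_mul_of_nonneg_left hr2 hρ.le)
        linarith
      · exact levels (g := g + e) (b := (b + e) * ℓ) n1 n2 n3)
  rw [← hr] at hcond
  have hbad : PR t₂ (fun x => P1 x ∨ P2 x ∨ P3 x ∨ P4 x ∨ P5 x) ≤ 5 * e := by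
    have a1 := PR_or t₂ P1 (fun x => P2 x ∨ P3 x ∨ P4 x ∨ P5 x)
    have a2 := PR_or t₂ P2 (fun x => P3 x ∨ P4 x ∨ P5 x)
    have a3 := PR_or t₂ P3 (fun x => P4 x ∨ P5 x)
    have a4 := PR_or t₂ P4 P5
    linarith
  have hseg := segment (g := g) (γ := γ) (e := e) (ℓ := ℓ) (s := s) (b := b) (M := M) (t := t)
    (r := r) (D := D) hg0 hg1 hγ0 hγ42 he heh heℓ (Nat.cast_nonneg s) hs2 hD hD0.le ht0 hℓM hr1
  have hE1 : Erf (R / √r) ≤ Erf (D * ℓ / √t) + 2 * ((D + 100) * M * e) := by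
    have a1 := Erf_mono hseg
    have a2 := Erf_lip (x := D * ℓ / √t) (y := D * ℓ / √t + (D + 100) * M * e)
      (by have : 0 ≤ (D + 100) * M * e := by positivity
          linarith)
    linarith
  have hfin : 6 * e + 2 * ((D + 100) * M * e) ≤ ε := by linarith
  linarith

end Pool.Agent.Q195.BT
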