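import Pool.Agent.Q74.BT.Stm

/-!
# Project BT, job Blk: the block lemma
-/

set_option autoImplicit false

namespace Pool.Agent.Q195.BT

open Finset Pool.Agent.Q74.BT
open Pool.Agent.Q158.Pair (T)
open Pool.Agent.Q74.AR (oc)
open Pool.Agent.H395R2.G3 (rr FF)
open Pool.Agent.H422R2.QA Pool.Agent.H320R2.PD

theorem TZ_eq : TZ 3 = T := by
  funext m
  simp [TZ, T]

theorem oc_letter (k : ℕ) (b x : ℤ) (h : 3 * b + 1 = 2 ^ (k + 1) * x) : oc (k + 1) b = 1 := by
  have h3 : (2 : ℤ) ^ (k + 1) * x = 2 * (2 ^ k * x) := by ring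
  have hodd : b % 2 = 1 := by omega
  have hT : T b = 2 ^ k * x := by
    unfold T
    rw [if_neg (by omega)]
    omega
  rw [Pool.Agent.Q74.AR.oc_succ, hT, Pool.Agent.Q74.BL.oc_pow_even, if_pos hodd]

theorem oc_Ep (w : List ℕ) : (∀ e ∈ w, 1 ≤ e) → ∀ x : ℤ, Vd 3 w x →
    oc w.sum (Ep 3 w x) = w.length := by
  induction w with
  | nil => intro _ x _; rfl
  | cons e w ih =>
    intro hw x h
    rw [App.Vd_cons Nat.prime_three (by norm_num)] at h
    have hw' : ∀ a ∈ w, 1 ≤ a := fun a ha => hw a (List.mem_cons_of_mem _ ha)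
    rw [App.Ep_cons Nat.prime_three (by norm_num) h.1, List.sum_cons, add_comm e w.sum,
      Pool.Agent.Q74.KP.oc_add, ih hw' _ h.2, ← TZ_eq,
      App.iter_Ep Nat.prime_three (by norm_num) w hw' _ h.2]
    have h1 := App.Ep_single h.1
    have he : 1 ≤ e := hw e List.mem_cons_self
    obtain ⟨k, rfl⟩ : ∃ k, e = k + 1 := ⟨e - 1, by omega⟩
    rw [oc_letter k _ x (by exact_mod_cast h1), List.length_cons]

theorem conn16 {E : ℕ} (hE : 17 ≤ E) : Conn 3 E 3 16 :=
  conn_three (by omega)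

theorem conn17 {E : ℕ} (hE : 17 ≤ E) : Conn 3 E 3 17 :=
  conn_of_list Nat.prime_three (by norm_num) hE
    [(1,7), (5,4), (4,2), (1,6), (1,5), (1,4), (4,6), (4,7), (4,8), (2,7), (3,3), (4,9), (1,1),
     (11,4), (8,4), (2,1), (4,10), (1,10), (5,9), (1,2), (3,1), (8,7), (5,7), (8,5), (2,2),
     (1,14), (2,4), (4,11), (1,11), (9,2), (5,3), (4,1), (1,3), (4,5), (2,6), (3,2), (11,3),
     (8,3), (1,9), (5,8), (8,6), (5,6), (1,13), (2,3), (9,1), (5,2), (4,4), (2,5), (8,2), (1,8),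
     (5,5), (1,12), (5,1), (4,3)]
    (by decide +kernel) (by decide +kernel)

/-- the words that lead from `z` to a live endpoint -/
def Wok (n s : ℕ) (z : ℤ) (v : List ℕ) : Prop :=
  v.length = n ∧ v.sum = s ∧ (∀ e ∈ v, 1 ≤ e) ∧ Lv 3 v z

theorem Wok.app {n s n' s' : ℕ} {z : ℤ} {u v : List ℕ} (hu : Wok n s z u)
    (hv : Wok n' s' (Ep 3 u z) v) : Wok (n + n') (s + s') z (u ++ v) := by
  obtain ⟨u1, u2, u3, u4⟩ := hu
  obtain ⟨v1, v2, v3, v4⟩ := hv
  refine ⟨by rw [List.length_append, u1, v1], by rw [List.sum_append, u2, v2], ?_, ?_, ?_⟩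
  · intro e he
    rcases List.mem_append.1 he with h | h
    · exact u3 e h
    · exact v3 e h
  · exact (Vd_append Nat.prime_three (by norm_num) u v z).2 ⟨u4.1, v4.1⟩
  · rw [Ep_append Nat.prime_three (by norm_num) u4.1]
    exact v4.2

theorem connk (k : ℕ) : ∀ j : ℕ, j ≤ k → ∀ z : ℤ, ¬ (3 : ℤ) ∣ z →
    ∃ v, Wok (3 * k) (16 * k + j) z v := by
  induction k with
  | zero =>
    intro j hj z hz
    refine ⟨[], rfl, ?_, ?_, ?_, ?_⟩
    · simp only [List.sum_nil]; omega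
    · intro e he; simp at he
    · exact Vd_nil 3 z
    · rw [Ep_nil]; exact hz
  | succ k ih =>
    intro j hj z hz
    by_cases hjk : j ≤ k
    · obtain ⟨u, hu1, hu2, hu3, _⟩ := conn16 (le_refl 17) z z hz hz
      have hu : Wok 3 16 z u := ⟨(mem_FW.1 hu1).1, hu2, App.FW_pos hu1, hu3⟩
      obtain ⟨v, hv⟩ := ih j hjk (Ep 3 u z) hu3.2
      refine ⟨u ++ v, ?_⟩
      have := hu.app hv
      rw [show 3 * (k + 1) = 3 + 3 * k by ring, show 16 * (k + 1) + j = 16 + (16 * k + j) by ring]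
      exact this
    · obtain ⟨u, hu1, hu2, hu3, _⟩ := conn17 (le_refl 17) z z hz hz
      have hu : Wok 3 17 z u := ⟨(mem_FW.1 hu1).1, hu2, App.FW_pos hu1, hu3⟩
      obtain ⟨v, hv⟩ := ih (j - 1) (by omega) (Ep 3 u z) hu3.2
      refine ⟨u ++ v, ?_⟩
      have := hu.app hv
      rw [show 3 * (k + 1) = 3 + 3 * k by ring,
        show 16 * (k + 1) + j = 17 + (16 * k + (j - 1)) by omega]
      exact this

theorem finish {n s : ℕ} {y : ℤ} {v : List ℕ} (hv : Wok n s y v) :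
    ∃ x : ℤ, ¬ (3 : ℤ) ∣ x ∧ T^[s] x = y ∧ oc s x = n ∧
      |3 ^ n * x - 2 ^ s * y| ≤ 3 ^ n * 2 ^ s := by
  obtain ⟨h1, h2, h3, h4⟩ := hv
  refine ⟨Ep 3 v y, h4.2, ?_, ?_, ?_⟩
  · rw [← TZ_eq, ← h2]
    exact App.iter_Ep Nat.prime_three (by norm_num) v h3 y h4.1
  · rw [← h2, ← h1]
    exact oc_Ep v h3 y h4.1
  · have h5 := Ep_spec h4.1
    rw [h1, h2] at h5
    have h6 : (3 : ℤ) ^ n * Ep 3 v y - 2 ^ s * y = -(Wq 3 v : ℤ) := by
      have : ((3 : ℕ) : ℤ) = 3 := rfl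
      rw [this] at h5
      linarith
    rw [h6, abs_neg, abs_of_nonneg (by positivity)]
    have h7 := Wq_le (q := 3) (by norm_num) v (by norm_num)
    rw [h1, h2] at h7
    calc (Wq 3 v : ℤ) ≤ ((2 ^ s * 3 ^ n : ℕ) : ℤ) := by exact_mod_cast h7
      _ = 3 ^ n * 2 ^ s := by push_cast; ring

/-- the choice of the frequency -/
theorem exists_alpha {γ : ℝ} (hγ : IsG γ) {ε : ℝ} (hε : 0 < ε) :
    ∃ α : ℝ, 1 / Real.log 2 < α ∧ α < γ ∧ 1 / α ≤ 1 / γ + ε / 2 := by
  have hγ0 : 0 < γ := by linarith [hγ.1]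
  have l2a := Real.log_two_gt_d9
  have hl2 : 0 < Real.log 2 := by linarith
  have h1 : 1 / Real.log 2 < γ := by
    rw [div_lt_iff₀ hl2]
    nlinarith [hγ.1]
  have h2 : 1 / (1 / γ + ε / 2) < γ := by
    rw [div_lt_iff₀ (by positivity)]
    have : γ * (1 / γ + ε / 2) = 1 + γ * ε / 2 := by field_simp
    rw [this]
    have : 0 < γ * ε := by positivity
    linarith
  refine ⟨max ((1 / Real.log 2 + γ) / 2) (1 / (1 / γ + ε / 2)), ?_, ?_, ?_⟩
  · exact lt_of_lt_of_le (by linarith) (le_max_left _ _)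
  · exact max_lt (by linarith) h2
  · have h3 : 0 < 1 / γ + ε / 2 := by positivity
    have h4 := le_max_right ((1 / Real.log 2 + γ) / 2) (1 / (1 / γ + ε / 2))
    calc 1 / max ((1 / Real.log 2 + γ) / 2) (1 / (1 / γ + ε / 2))
        ≤ 1 / (1 / (1 / γ + ε / 2)) := one_div_le_one_div_of_le (by positivity) h4
      _ = 1 / γ + ε / 2 := one_div_one_div _

/-- the size of the blocks -/
theorem sizes {r a δ n k S : ℝ} (hr0 : 0 < r) (hr1 : r < 1) (hδ : 0 < δ) (ha : |a - 1 / r| ≤ δ)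
    (hn : 33 ≤ δ * n) (hn0 : 0 ≤ n) (hk0 : 0 ≤ k) (hk : k ≤ 2 * δ * n + 2) (hS : (a + δ) * n ≤ S)
    (hS' : S ≤ (a + δ) * n + 1) :
    |r * (S + 16 * k) - (n + 3 * k)| ≤ 35 * (δ * n) ∧ n ≤ S + 16 * k := by
  obtain ⟨ha1, ha2⟩ := abs_le.1 ha
  have h1 : n ≤ r * S := by
    have e1 : 1 / r * n ≤ S := le_trans (mul_le_mul_of_nonneg_right (by linarith) hn0) hS
    have e2 : r * (1 / r * n) ≤ r * S := mul_le_mul_of_nonneg_left e1 hr0.le
    have e3 : r * (1 / r * n) = n := by field_simp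
    linarith
  have h2 : r * S ≤ n + 2 * (δ * n) + 1 := by
    have e1 : S ≤ (1 / r + 2 * δ) * n + 1 := by
      refine hS'.trans ?_
      have := mul_le_mul_of_nonneg_right (show a + δ ≤ 1 / r + 2 * δ by linarith) hn0
      linarith
    have e2 : r * S ≤ r * ((1 / r + 2 * δ) * n + 1) := mul_le_mul_of_nonneg_left e1 hr0.le
    have e3 : r * ((1 / r + 2 * δ) * n + 1) = n + r * (2 * (δ * n) + 1) := by
      field_simp
      ring
    have e4 : r * (2 * (δ * n) + 1) ≤ 1 * (2 * (δ * n) + 1) :=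
      mul_le_mul_of_nonneg_right hr1.le (by positivity)
    linarith
  have h3 : 0 ≤ r * k := by positivity
  have h4 : r * k ≤ k := by nlinarith
  have hS0 : n ≤ S := by nlinarith
  refine ⟨abs_le.2 ⟨?_, ?_⟩, by linarith⟩
  · have : r * (S + 16 * k) = r * S + 16 * (r * k) := by ring
    rw [this]
    nlinarith
  · have : r * (S + 16 * k) = r * S + 16 * (r * k) := by ring
    rw [this]
    nlinarith

theorem blk : S_Blk := by
  intro γ hγ ε hε
  obtain ⟨α, hα1, hα2, hα3⟩ := exists_alpha hγ hε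
  have hF := hγ.2.2.2 α hα1 hα2
  have l2a := Real.log_two_gt_d9
  have l3b := Real.log_three_lt_d9
  have hl2 : 0 < Real.log 2 := by linarith
  have hl3 : 0 < Real.log 3 := Real.log_pos (by norm_num)
  have hα0 : 0 < α := lt_trans (by positivity) hα1
  have hr0 := Pool.Agent.H395R2.G3.rr_pos hα1
  have hr1 := Pool.Agent.H395R2.G3.rr_lt_one hα0
  have hrel := Pool.Agent.H395R2.G3.rr_spec α
  set r := rr α with hr
  have hFr : 0 < FF r / r := div_pos hF hr0
  set δ : ℝ := min (1 / (80 * α)) (ε / 80) with hδd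
  have hδ : 0 < δ := lt_min (by positivity) (by positivity)
  have hδ1 : δ ≤ 1 / (80 * α) := min_le_left _ _
  have hδ2 : δ ≤ ε / 80 := min_le_right _ _
  obtain ⟨E, hE, ha, hG⟩ := Pool.Agent.H395R2.G3.exists_cap hr0 hr1 (δ := min δ (FF r / r / 2))
    (lt_min hδ (by positivity))
  have ha' := ha.trans (min_le_left _ _)
  have hG'' := hG.trans (min_le_right _ _)
  have hGpos : 0 < Gz 3 (1 - r) E := by
    have := (abs_le.1 hG'').1
    linarith
  have hPr := main (q := 3) Nat.prime_three (by norm_num) prim_three (E := E) (m := 3) (C := 16)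
    (by omega) (conn_three hE) (z := 1 - r) (by linarith) hGpos
  set a := az (1 - r) E with had
  obtain ⟨n₀, hn₀⟩ := hPr δ hδ
  obtain ⟨n₁, hn₁⟩ := exists_nat_ge (33 / δ)
  set n : ℕ := max n₀ (max n₁ 1) with hnd
  have hnn₀ : n₀ ≤ n := le_max_left _ _
  have hnn₁ : n₁ ≤ n := (le_max_left _ _).trans (le_max_right _ _)
  have hn1 : 1 ≤ n := (le_max_right _ _).trans (le_max_right _ _)
  have hn33 : 33 ≤ δ * n := by
    have h1 : (n₁ : ℝ) ≤ n := by exact_mod_cast hnn₁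
    have h2 := hn₁.trans h1
    rw [div_le_iff₀ hδ] at h2
    linarith
  have hn0 : (0 : ℝ) ≤ n := Nat.cast_nonneg n
  have hn1r : (1 : ℝ) ≤ n := by exact_mod_cast hn1
  have hapos : 0 ≤ a + δ := by
    have := (abs_le.1 ha').1
    have : 0 < 1 / r := by positivity
    linarith
  set k : ℕ := ⌈2 * δ * n⌉₊ + 1 with hkd
  set S : ℕ := ⌈(a + δ) * n⌉₊ with hSd
  have hk1 : 2 * δ * n + 1 ≤ k := by
    rw [hkd]; push_cast
    have := Nat.le_ceil (2 * δ * (n : ℝ))
    linarith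
  have hk2 : (k : ℝ) ≤ 2 * δ * n + 2 := by
    rw [hkd]; push_cast
    have := (Nat.ceil_lt_add_one (show 0 ≤ 2 * δ * (n : ℝ) by positivity)).le
    linarith
  have hS1 : (a + δ) * n ≤ S := Nat.le_ceil _
  have hS2 : (S : ℝ) ≤ (a + δ) * n + 1 :=
    (Nat.ceil_lt_add_one (mul_nonneg hapos hn0)).le
  obtain ⟨hD, hns⟩ := sizes hr0 hr1 hδ ha' hn33 hn0 (Nat.cast_nonneg k) hk2 hS1 hS2
  have hsz : ((S + 16 * k : ℕ) : ℝ) = S + 16 * k := by push_cast; ring
  have hnz : ((n + 3 * k : ℕ) : ℝ) = n + 3 * k := by push_cast; ring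
  set s' : ℝ := (S : ℝ) + 16 * k with hs'
  set n' : ℝ := (n : ℝ) + 3 * k with hn'
  have hs'0 : 0 < s' := by linarith
  have hval : s' * Real.log 2 - n' * Real.log 3 = s' / α + (r * s' - n') * Real.log 3 := by
    have h1 : Real.log 2 = 1 / α + r * Real.log 3 := by linarith
    rw [h1]; ring
  have hsmall : |(r * s' - n') * Real.log 3| ≤ 40 * δ * s' := by
    rw [abs_mul, abs_of_pos hl3]
    calc |r * s' - n'| * Real.log 3 ≤ 35 * (δ * n) * Real.log 3 :=
          mul_le_mul_of_nonneg_right hD hl3.le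
      _ ≤ 35 * (δ * n) * (8 / 7) := by
          apply mul_le_mul_of_nonneg_left _ (by positivity)
          norm_num at *
          linarith
      _ = 40 * δ * n := by ring
      _ ≤ 40 * δ * s' := mul_le_mul_of_nonneg_left hns (by positivity)
  obtain ⟨hsm1, hsm2⟩ := abs_le.1 hsmall
  have h40a : 40 * δ * s' ≤ s' / (2 * α) := by
    have h1 : 40 * δ ≤ 1 / (2 * α) := by
      have : 40 * (1 / (80 * α)) = 1 / (2 * α) := by field_simp; norm_num
      linarith
    calc 40 * δ * s' ≤ 1 / (2 * α) * s' := mul_le_mul_of_nonneg_right h1 hs'0.le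
      _ = s' / (2 * α) := by ring
  have h40b : 40 * δ * s' ≤ ε / 2 * s' := mul_le_mul_of_nonneg_right (by linarith) hs'0.le
  have hhalf : s' / (2 * α) < s' / α := by
    apply div_lt_div_of_pos_left hs'0 hα0
    linarith
  refine ⟨n + 3 * k, S + 16 * k, by omega, ?_, ?_, ?_⟩
  · have h1 : n' * Real.log 3 < s' * Real.log 2 := by linarith
    rw [← hsz, ← hnz, ← Real.log_pow, ← Real.log_pow,
      Real.log_lt_log_iff (by positivity) (by positivity)] at h1
    exact_mod_cast h1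
  · rw [hsz, hnz, hval]
    have h2 : s' / α ≤ (1 / γ + ε / 2) * s' := by
      rw [div_eq_mul_one_div, mul_comm]
      exact mul_le_mul_of_nonneg_right hα3 hs'0.le
    linarith
  · intro y hy
    obtain ⟨s, hs1, hs2⟩ := hn₀ n hnn₀ y hy
    have hpos : 0 < Nq 3 E n s y := by
      have : (0 : ℝ) < (Nq 3 E n s y : ℝ) := lt_of_lt_of_le (Real.exp_pos _) hs2
      exact_mod_cast this
    unfold Nq at hpos
    obtain ⟨w, hw⟩ := Finset.card_pos.1 hpos
    simp only [Finset.mem_filter] at hw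
    obtain ⟨hw1, hw2, hw3⟩ := hw
    have hwok : Wok n s y w := ⟨(mem_FW.1 hw1).1, hw2, App.FW_pos hw1, hw3⟩
    obtain ⟨hs3, hs4⟩ := abs_le.1 hs1
    have hsS : s ≤ S := by
      have : (s : ℝ) ≤ S := by linarith
      exact_mod_cast this
    have hj : S - s ≤ k := by
      have h1 : (S : ℝ) ≤ s + k := by linarith
      have h2 : S ≤ s + k := by exact_mod_cast h1
      omega
    obtain ⟨v, hv⟩ := connk k (S - s) hj (Ep 3 w y) hw3.2
    have hfin := hwok.app hv
    rw [show s + (16 * k + (S - s)) = S + 16 * k by omega] at hfin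
    exact finish hfin

end Pool.Agent.Q195.BT
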