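import Pool.Agent.Q74.BT.Stm

/-!
# Project BT, job Sim: all lengths and all times at once
-/

set_option autoImplicit false

namespace Pool.Agent.Q195.BT

open Finset Pool.Agent.Q74.BT
open Pool.Agent.Q158.Pair (T)

theorem Vn_mono {L L' : ℕ} (h : L ≤ L') (t : ℕ) (n : ℤ) : Vn L t n ≤ Vn L' t n :=
  card_le_card (image_subset_image (range_mono h))

theorem Vn_anti {t t' : ℕ} (h : t ≤ t') (L : ℕ) (n : ℤ) : Vn L t' n ≤ Vn L t n := by
  obtain ⟨s, rfl⟩ := Nat.exists_eq_add_of_le h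
  unfold Vn
  have h1 : (range L).image (fun j : ℕ => T^[t + s] (n + j)) =
      ((range L).image (fun j : ℕ => T^[t] (n + j))).image (T^[s]) := by
    rw [image_image]
    congr 1
    funext j
    rw [Function.comp_apply, ← Function.iterate_add_apply, add_comm]
  rw [h1]
  exact card_image_le

/-- Markov's inequality for a finite sum -/
theorem markov (S : Finset ℤ) (f : ℤ → ℕ) {lam B : ℝ} (hlam : 0 < lam)
    (h : ∑ n ∈ S, (f n : ℝ) ≤ B) :
    ((S.filter (fun n => lam < (f n : ℝ))).card : ℝ) ≤ B / lam := by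
  rw [le_div_iff₀ hlam]
  refine le_trans ?_ h
  calc ((S.filter (fun n => lam < (f n : ℝ))).card : ℝ) * lam
      = ∑ _n ∈ S.filter (fun n => lam < (f n : ℝ)), lam := by
        rw [sum_const, nsmul_eq_mul]
    _ ≤ ∑ n ∈ S.filter (fun n => lam < (f n : ℝ)), (f n : ℝ) :=
        sum_le_sum fun n hn => (mem_filter.1 hn).2.le
    _ ≤ ∑ n ∈ S, (f n : ℝ) :=
        sum_le_sum_of_subset_of_nonneg (filter_subset _ _) fun n _ _ => Nat.cast_nonneg _

/-- the last relevant time for the length `2 ^ k` -/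
noncomputable def tk (γ : ℝ) (k : ℕ) : ℕ := ⌈2 * γ * (k * Real.log 2)⌉₊

/-- the threshold -/
noncomputable def thr (γ ε : ℝ) (k t : ℕ) : ℝ :=
  (2 : ℝ) ^ (-(ε + 1)) * (2 : ℝ) ^ (ε * k) * (1 + 2 ^ k * Real.exp (-(t / γ)))

theorem thr_pos (γ ε : ℝ) (k t : ℕ) : 0 < thr γ ε k t := by
  unfold thr
  positivity

/-- reduction to powers of two and to bounded times -/
theorem reduce {γ ε : ℝ} (hγ : 0 < γ) (hε : 0 < ε) {L t : ℕ} (hL : 1 ≤ L) {v : ℝ}
    (h : (L : ℝ) ^ ε * (1 + L * Real.exp (-(t / γ))) < v) :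
    thr γ ε (Nat.clog 2 L) (min t (tk γ (Nat.clog 2 L))) < v := by
  set k := Nat.clog 2 L with hk
  have hk2 : (2 : ℝ) ^ k ≤ 2 * L := by
    by_cases h1 : 1 < L
    · have h2 := Nat.pow_pred_clog_lt_self (b := 2) (by norm_num) h1
      have h3 : 0 < Nat.clog 2 L := Nat.clog_pos (by norm_num) h1
      have h4 : 2 ^ Nat.clog 2 L = 2 * 2 ^ (Nat.clog 2 L).pred := by
        rw [← pow_succ', ← Nat.succ_eq_add_one, Nat.succ_pred_eq_of_pos h3]
      have h5 : 2 ^ k ≤ 2 * L := by rw [hk, h4]; omega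
      exact_mod_cast h5
    · have h2 : L = 1 := by omega
      rw [hk, h2]
      norm_num
  have hL0 : (1 : ℝ) ≤ L := by exact_mod_cast hL
  have e1 : (2 : ℝ) ^ (-(ε + 1)) * (2 : ℝ) ^ (ε * k) ≤ (L : ℝ) ^ ε / 2 := by
    have e2 : (2 : ℝ) ^ (ε * k) = ((2 : ℝ) ^ k) ^ ε := by
      rw [mul_comm, Real.rpow_mul (by norm_num), Real.rpow_natCast]
    have e3 : ((2 : ℝ) ^ k) ^ ε ≤ (2 * L) ^ ε := Real.rpow_le_rpow (by positivity) hk2 hε.le
    have e4 : (2 : ℝ) ^ (-(ε + 1)) = ((2 : ℝ) ^ ε)⁻¹ / 2 := by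
      rw [Real.rpow_neg (by norm_num), Real.rpow_add (by norm_num), Real.rpow_one, mul_inv,
        div_eq_mul_inv]
    rw [e2, e4]
    calc ((2 : ℝ) ^ ε)⁻¹ / 2 * ((2 : ℝ) ^ k) ^ ε ≤ ((2 : ℝ) ^ ε)⁻¹ / 2 * (2 * L) ^ ε :=
          mul_le_mul_of_nonneg_left e3 (by positivity)
      _ = (L : ℝ) ^ ε / 2 := by
          rw [Real.mul_rpow (by norm_num) (by linarith)]
          field_simp
  have e5 : 1 + 2 ^ k * Real.exp (-((min t (tk γ k) : ℕ) / γ)) ≤
      2 * (1 + L * Real.exp (-(t / γ))) := by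
    rcases le_total t (tk γ k) with h1 | h1
    · rw [min_eq_left h1]
      have : (2 : ℝ) ^ k * Real.exp (-(t / γ)) ≤ 2 * L * Real.exp (-(t / γ)) :=
        mul_le_mul_of_nonneg_right hk2 (Real.exp_pos _).le
      linarith
    · rw [min_eq_right h1]
      have h2 : 2 * γ * (k * Real.log 2) ≤ tk γ k := Nat.le_ceil _
      have h3 : 2 * (k * Real.log 2) ≤ tk γ k / γ := by
        rw [le_div_iff₀ hγ]
        linarith
      have hl2 : 0 < Real.log 2 := Real.log_pos (by norm_num)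
      have h4 : (2 : ℝ) ^ k * Real.exp (-(tk γ k / γ)) ≤ 1 := by
        have h5 : (2 : ℝ) ^ k = Real.exp (k * Real.log 2) := by
          rw [mul_comm, ← Real.rpow_def_of_pos (by norm_num), Real.rpow_natCast]
        rw [h5, ← Real.exp_add, Real.exp_le_one_iff]
        have : 0 ≤ k * Real.log 2 := by positivity
        linarith
      have h5 : 0 ≤ L * Real.exp (-(t / γ)) := by positivity
      linarith
  refine lt_of_le_of_lt ?_ h
  unfold thr
  calc (2 : ℝ) ^ (-(ε + 1)) * (2 : ℝ) ^ (ε * k) *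
      (1 + 2 ^ k * Real.exp (-((min t (tk γ k) : ℕ) / γ)))
      ≤ (L : ℝ) ^ ε / 2 * (2 * (1 + L * Real.exp (-(t / γ)))) :=
        mul_le_mul e1 e5 (by positivity) (by positivity)
    _ = _ := by ring

theorem one_add_le_exp {e x : ℝ} (he : 0 < e) (he1 : e ≤ 1) (hx : 0 ≤ x) :
    1 + x ≤ e⁻¹ * Real.exp (e * x) := by
  have h1 := Real.add_one_le_exp (e * x)
  have h2 : e * (1 + x) ≤ Real.exp (e * x) := by nlinarith
  calc 1 + x = e⁻¹ * (e * (1 + x)) := by field_simp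
    _ ≤ e⁻¹ * Real.exp (e * x) := mul_le_mul_of_nonneg_left h2 (by positivity)

/-- the bound for one length and one time -/
theorem one_time {γ ε e C : ℝ} (hC : 0 < C) (he : 0 < e) {k t : ℕ} {W : ℝ}
    (hW : 0 ≤ W) :
    C * (1 + t + (2 ^ k : ℕ) * Real.exp (-((1 / γ - e) * t))) * W / thr γ ε k t ≤
      C * (2 : ℝ) ^ (ε + 1) * (2 : ℝ) ^ (-(ε * k)) * ((1 + t) * Real.exp (e * t)) * W := by
  rw [div_le_iff₀ (thr_pos _ _ _ _)]
  have h1 : Real.exp (-((1 / γ - e) * t)) = Real.exp (-(t / γ)) * Real.exp (e * t) := by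
    rw [← Real.exp_add]; congr 1; ring
  have h2 : (1 : ℝ) ≤ Real.exp (e * t) := Real.one_le_exp (by positivity)
  have h3 : (1 : ℝ) + t + (2 ^ k : ℕ) * Real.exp (-((1 / γ - e) * t)) ≤
      (1 + t) * Real.exp (e * t) * (1 + 2 ^ k * Real.exp (-(t / γ))) := by
    rw [h1]
    push_cast
    set E := Real.exp (-(t / γ)) with hE
    set F := Real.exp (e * t) with hF
    have hE0 : 0 < E := Real.exp_pos _
    have ht : (0 : ℝ) ≤ t := Nat.cast_nonneg t
    have a1 : (1 + t : ℝ) ≤ (1 + t) * F := le_mul_of_one_le_right (by positivity) h2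
    have a2 : (2 : ℝ) ^ k * (E * F) ≤ (1 + t) * F * (2 ^ k * E) := by
      have : (0 : ℝ) ≤ t * (F * (2 ^ k * E)) := by positivity
      nlinarith
    nlinarith
  have h4 : C * (2 : ℝ) ^ (ε + 1) * (2 : ℝ) ^ (-(ε * k)) * ((1 + t) * Real.exp (e * t)) * W *
      thr γ ε k t =
      C * ((1 + t) * Real.exp (e * t) * (1 + 2 ^ k * Real.exp (-(t / γ)))) * W := by
    unfold thr
    have a1 : (2 : ℝ) ^ (ε + 1) * (2 : ℝ) ^ (-(ε + 1)) = 1 := by
      rw [← Real.rpow_add (by norm_num)]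
      simp
    have a2 : (2 : ℝ) ^ (-(ε * k)) * (2 : ℝ) ^ (ε * k) = 1 := by
      rw [← Real.rpow_add (by norm_num)]
      simp
    calc _ = C * ((2 : ℝ) ^ (ε + 1) * (2 : ℝ) ^ (-(ε + 1))) *
          ((2 : ℝ) ^ (-(ε * k)) * (2 : ℝ) ^ (ε * k)) *
          ((1 + t) * Real.exp (e * t) * (1 + 2 ^ k * Real.exp (-(t / γ)))) * W := by ring
      _ = _ := by rw [a1, a2]; ring
  rw [h4]
  exact mul_le_mul_of_nonneg_right (mul_le_mul_of_nonneg_left h3 hC.le) hW

open Classical in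
/-- the bad starting points for the length `2 ^ k` -/
noncomputable def Bad (γ ε : ℝ) (M : ℤ) (W k : ℕ) : Finset ℤ :=
  (Ico M (M + W)).filter (fun n => ∃ t ∈ range (tk γ k + 1), 2 ^ t ≤ W ∧
    thr γ ε k t < (Vn (2 ^ k) t n : ℝ))

theorem mem_Bad {γ ε : ℝ} {M : ℤ} {W k : ℕ} {n : ℤ} : n ∈ Bad γ ε M W k ↔
    n ∈ Ico M (M + W) ∧ ∃ t ∈ range (tk γ k + 1), 2 ^ t ≤ W ∧
      thr γ ε k t < (Vn (2 ^ k) t n : ℝ) := by
  unfold Bad
  simp only [mem_filter]

theorem sim (h : S_UpW) : S_Sim := by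
  classical
  intro γ hγ ε hε
  have hγ0 : 0 < γ := by linarith [hγ.1]
  have hl2 : 0 < Real.log 2 := Real.log_pos (by norm_num)
  set e : ℝ := min 1 (ε / (12 * γ)) with hed
  have he : 0 < e := lt_min (by norm_num) (by positivity)
  have he1 : e ≤ 1 := min_le_left _ _
  have he2 : 12 * γ * e ≤ ε := by
    have : e ≤ ε / (12 * γ) := min_le_right _ _
    rw [le_div_iff₀ (by positivity)] at this
    linarith
  obtain ⟨C, hC, hU⟩ := h γ hγ e he
  set C₂ : ℝ := C * (2 : ℝ) ^ (ε + 1) * (e⁻¹ * e⁻¹ * Real.exp (3 * e)) with hC₂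
  have hC₂0 : 0 < C₂ := by positivity
  set q : ℝ := (2 : ℝ) ^ (-(ε / 2)) with hq
  have hq0 : 0 < q := by positivity
  have hq1 : q < 1 := Real.rpow_lt_one_of_one_lt_of_neg (by norm_num) (by linarith)
  -- bound of the bad sets
  have hBad : ∀ (M : ℤ) (W k : ℕ), ((Bad γ ε M W k).card : ℝ) ≤ C₂ * q ^ k * W := by
    intro M W k
    have hW0 : (0 : ℝ) ≤ W := Nat.cast_nonneg W
    have h1 : Bad γ ε M W k ⊆ ((range (tk γ k + 1)).filter (fun t => 2 ^ t ≤ W)).biUnion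
        (fun t => (Ico M (M + W)).filter (fun n => thr γ ε k t < (Vn (2 ^ k) t n : ℝ))) := by
      intro n hn
      obtain ⟨hn1, t, ht1, ht2, ht3⟩ := mem_Bad.1 hn
      rw [mem_biUnion]
      exact ⟨t, mem_filter.2 ⟨ht1, ht2⟩, mem_filter.2 ⟨hn1, ht3⟩⟩
    have h2 : ((Bad γ ε M W k).card : ℝ) ≤ ∑ t ∈ (range (tk γ k + 1)).filter (fun t => 2 ^ t ≤ W),
        (((Ico M (M + W)).filter (fun n => thr γ ε k t < (Vn (2 ^ k) t n : ℝ))).card : ℝ) := by
      have := (card_le_card h1).trans card_biUnion_le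
      exact_mod_cast this
    refine h2.trans ?_
    set T₀ : ℝ := (tk γ k : ℝ) with hT₀
    have hT0 : 0 ≤ T₀ := Nat.cast_nonneg _
    have h3 : ∀ t ∈ (range (tk γ k + 1)).filter (fun t => 2 ^ t ≤ W),
        (((Ico M (M + W)).filter (fun n => thr γ ε k t < (Vn (2 ^ k) t n : ℝ))).card : ℝ) ≤
          C * (2 : ℝ) ^ (ε + 1) * (2 : ℝ) ^ (-(ε * k)) * ((1 + T₀) * Real.exp (e * T₀)) * W := by
      intro t ht
      rw [mem_filter, mem_range] at ht
      have ht' : (t : ℝ) ≤ T₀ := by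
        rw [hT₀]
        exact_mod_cast (by omega : t ≤ tk γ k)
      have h4 := markov (Ico M (M + W)) (fun n => Vn (2 ^ k) t n) (thr_pos γ ε k t)
        (hU (2 ^ k) t Nat.one_le_two_pow M W ht.2)
      refine h4.trans ((one_time hC he hW0).trans ?_)
      have ht0 : (0 : ℝ) ≤ t := Nat.cast_nonneg t
      have a1 : (1 + (t : ℝ)) * Real.exp (e * t) ≤ (1 + T₀) * Real.exp (e * T₀) := by
        apply mul_le_mul (by linarith) _ (Real.exp_pos _).le (by linarith)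
        exact Real.exp_le_exp.2 (mul_le_mul_of_nonneg_left ht' he.le)
      exact mul_le_mul_of_nonneg_right (mul_le_mul_of_nonneg_left a1 (by positivity)) hW0
    refine (sum_le_sum h3).trans ?_
    rw [sum_const, nsmul_eq_mul]
    have h5 : ((((range (tk γ k + 1)).filter (fun t => 2 ^ t ≤ W)).card : ℕ) : ℝ) ≤ 1 + T₀ := by
      have := card_filter_le (range (tk γ k + 1)) (fun t => 2 ^ t ≤ W)
      rw [card_range] at this
      have h6 : ((((range (tk γ k + 1)).filter (fun t => 2 ^ t ≤ W)).card : ℕ) : ℝ) ≤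
          ((tk γ k + 1 : ℕ) : ℝ) := by exact_mod_cast this
      push_cast at h6
      linarith
    have h7 : (1 + T₀) * ((1 + T₀) * Real.exp (e * T₀)) ≤
        e⁻¹ * e⁻¹ * Real.exp (3 * e) * (2 : ℝ) ^ (ε / 2 * k) := by
      have a1 := one_add_le_exp he he1 hT0
      have a2 : (1 + T₀) * ((1 + T₀) * Real.exp (e * T₀)) ≤
          (e⁻¹ * Real.exp (e * T₀)) * ((e⁻¹ * Real.exp (e * T₀)) * Real.exp (e * T₀)) := by
        apply mul_le_mul a1 _ (by positivity) (by positivity)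
        exact mul_le_mul_of_nonneg_right a1 (Real.exp_pos _).le
      have a3 : (e⁻¹ * Real.exp (e * T₀)) * ((e⁻¹ * Real.exp (e * T₀)) * Real.exp (e * T₀)) =
          e⁻¹ * e⁻¹ * Real.exp (3 * (e * T₀)) := by
        have : Real.exp (3 * (e * T₀)) = Real.exp (e * T₀) * Real.exp (e * T₀) *
            Real.exp (e * T₀) := by
          rw [← Real.exp_add, ← Real.exp_add]; congr 1; ring
        rw [this]; ring
      have a4 : T₀ ≤ 2 * γ * (k * Real.log 2) + 1 :=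
        (Nat.ceil_lt_add_one (by positivity)).le
      have a5 : 3 * (e * T₀) ≤ 3 * e + ε / 2 * k * Real.log 2 := by
        have b1 : e * T₀ ≤ e * (2 * γ * (k * Real.log 2) + 1) :=
          mul_le_mul_of_nonneg_left a4 he.le
        have b2 : 12 * γ * e * (k * Real.log 2) ≤ ε * (k * Real.log 2) :=
          mul_le_mul_of_nonneg_right he2 (by positivity)
        nlinarith
      rw [a3] at a2
      refine a2.trans ?_
      rw [mul_assoc (e⁻¹ * e⁻¹)]
      refine mul_le_mul_of_nonneg_left ?_ (by positivity)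
      rw [Real.rpow_def_of_pos (by norm_num), ← Real.exp_add]
      apply Real.exp_le_exp.2
      linarith
    have h8 : (2 : ℝ) ^ (-(ε * k)) * (2 : ℝ) ^ (ε / 2 * k) = q ^ k := by
      rw [hq, ← Real.rpow_natCast, ← Real.rpow_mul (by norm_num), ← Real.rpow_add (by norm_num)]
      congr 1; ring
    calc _ ≤ (1 + T₀) * (C * (2 : ℝ) ^ (ε + 1) * (2 : ℝ) ^ (-(ε * k)) *
          ((1 + T₀) * Real.exp (e * T₀)) * W) :=
          mul_le_mul_of_nonneg_right h5 (by positivity)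
      _ = C * (2 : ℝ) ^ (ε + 1) * (2 : ℝ) ^ (-(ε * k)) *
          ((1 + T₀) * ((1 + T₀) * Real.exp (e * T₀))) * W := by ring
      _ ≤ C * (2 : ℝ) ^ (ε + 1) * (2 : ℝ) ^ (-(ε * k)) *
          (e⁻¹ * e⁻¹ * Real.exp (3 * e) * (2 : ℝ) ^ (ε / 2 * k)) * W :=
          mul_le_mul_of_nonneg_right (mul_le_mul_of_nonneg_left h7 (by positivity)) hW0
      _ = C₂ * ((2 : ℝ) ^ (-(ε * k)) * (2 : ℝ) ^ (ε / 2 * k)) * W := by rw [hC₂]; ring
      _ = C₂ * q ^ k * W := by rw [h8]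
  refine ⟨C₂ / (1 - q), ε / 2, div_pos hC₂0 (by linarith), by linarith, ?_⟩
  intro L₀ hL₀ M W
  have hW0 : (0 : ℝ) ≤ W := Nat.cast_nonneg W
  set k₀ := Nat.clog 2 L₀ with hk₀
  set A : Set ℤ := {n : ℤ | M ≤ n ∧ n < M + W ∧ ∃ L t : ℕ, L₀ ≤ L ∧ 2 ^ t ≤ W ∧
    (L : ℝ) ^ ε * (1 + L * Real.exp (-(t / γ))) < Vn L t n} with hA
  have hsub0 : A ⊆ ((Ico M (M + W) : Finset ℤ) : Set ℤ) := by
    rintro n ⟨h1, h2, _⟩
    rw [coe_Ico]
    exact ⟨h1, h2⟩
  have hfin : A.Finite := (Finset.finite_toSet _).subset hsub0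
  have hex : ∀ n ∈ A, ∃ k, k₀ ≤ k ∧ n ∈ Bad γ ε M W k := by
    rintro n ⟨h1, h2, L, t, h3, h4, h5⟩
    refine ⟨Nat.clog 2 L, Nat.clog_mono_right 2 h3, ?_⟩
    refine mem_Bad.2 ⟨mem_Ico.2 ⟨h1, h2⟩, min t (tk γ (Nat.clog 2 L)), ?_, ?_, ?_⟩
    · rw [mem_range]
      have := min_le_right t (tk γ (Nat.clog 2 L))
      omega
    · exact (Nat.pow_le_pow_right (by norm_num) (min_le_left _ _)).trans h4
    · have h6 := reduce hγ0 hε (hL₀.trans h3) h5
      refine lt_of_lt_of_le h6 ?_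
      have h7 : Vn L t n ≤ Vn (2 ^ Nat.clog 2 L) (min t (tk γ (Nat.clog 2 L))) n :=
        (Vn_mono (Nat.le_pow_clog (by norm_num) L) t n).trans (Vn_anti (min_le_left _ _) _ n)
      exact_mod_cast h7
  choose! kf hk1 hk2 using hex
  obtain ⟨K, hK⟩ : ∃ K : ℕ, ∀ n ∈ A, kf n < K := by
    obtain ⟨K, hK⟩ := (hfin.image kf).bddAbove
    exact ⟨K + 1, fun n hn => Nat.lt_succ_of_le (hK (Set.mem_image_of_mem _ hn))⟩
  have hsub : A ⊆ (((Ico k₀ K).biUnion (fun k => Bad γ ε M W k) : Finset ℤ) : Set ℤ) := by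
    intro n hn
    rw [mem_coe, mem_biUnion]
    exact ⟨kf n, mem_Ico.2 ⟨hk1 n hn, hK n hn⟩, hk2 n hn⟩
  have h1 : (A.ncard : ℝ) ≤ ∑ k ∈ Ico k₀ K, ((Bad γ ε M W k).card : ℝ) := by
    have h2 := Set.ncard_le_ncard hsub (Finset.finite_toSet _)
    rw [Set.ncard_coe_finset] at h2
    have := h2.trans card_biUnion_le
    exact_mod_cast this
  have h2 : ∑ k ∈ Ico k₀ K, q ^ k ≤ q ^ k₀ / (1 - q) := by
    rw [le_div_iff₀ (by linarith)]
    rcases le_total k₀ K with h3 | h3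
    · have h4 := geom_sum_Ico' (x := q) hq1.ne h3
      rw [h4, div_mul_cancel₀ _ (by linarith : (1 : ℝ) - q ≠ 0)]
      have : 0 ≤ q ^ K := by positivity
      linarith
    · rw [Finset.Ico_eq_empty_of_le h3, sum_empty, zero_mul]
      positivity
  have h3 : q ^ k₀ ≤ 1 / (L₀ : ℝ) ^ (ε / 2) := by
    have hL : (L₀ : ℝ) ≤ 2 ^ k₀ := by exact_mod_cast Nat.le_pow_clog (by norm_num) L₀
    have hL1 : (1 : ℝ) ≤ L₀ := by exact_mod_cast hL₀
    have a1 : q ^ k₀ = 1 / ((2 : ℝ) ^ k₀) ^ (ε / 2) := by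
      rw [hq, ← Real.rpow_natCast, ← Real.rpow_mul (by norm_num), ← Real.rpow_natCast,
        ← Real.rpow_mul (by norm_num), one_div, ← Real.rpow_neg (by norm_num)]
      congr 1; ring
    rw [a1]
    exact one_div_le_one_div_of_le (by positivity)
      (Real.rpow_le_rpow (by linarith) hL (by linarith))
  calc (A.ncard : ℝ) ≤ ∑ k ∈ Ico k₀ K, ((Bad γ ε M W k).card : ℝ) := h1
    _ ≤ ∑ k ∈ Ico k₀ K, C₂ * q ^ k * W := sum_le_sum fun k _ => hBad M W k
    _ = C₂ * W * ∑ k ∈ Ico k₀ K, q ^ k := by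
        rw [mul_sum]
        exact sum_congr rfl fun k _ => by ring
    _ ≤ C₂ * W * (q ^ k₀ / (1 - q)) := mul_le_mul_of_nonneg_left h2 (by positivity)
    _ = C₂ * W / (1 - q) * q ^ k₀ := by ring
    _ ≤ C₂ * W / (1 - q) * (1 / (L₀ : ℝ) ^ (ε / 2)) :=
        mul_le_mul_of_nonneg_left h3 (div_nonneg (by positivity) (by linarith))
    _ = C₂ / (1 - q) * W / (L₀ : ℝ) ^ (ε / 2) := by ring

end Pool.Agent.Q195.BT
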